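import Pool.Agent.L0h52.BZ.Stm

/-!
# Project BZ (helper52): the upper bound by Mellin inversion
-/

set_option autoImplicit false

open Filter Topology Asymptotics MeasureTheory

namespace Pool.Agent.L0h52.BZ

/-- the Mellin transform is bounded on vertical lines -/
theorem norm_mellin_le (f : ℝ → ℂ) (σ t : ℝ) :
    ‖mellin f ((σ : ℂ) + (t : ℂ) * Complex.I)‖ ≤
      ∫ y in Set.Ioi (0 : ℝ), ‖((y : ℝ) : ℂ) ^ ((σ : ℂ) - 1) • f y‖ := by
  unfold mellin
  refine (norm_integral_le_integral_norm _).trans (le_of_eq ?_)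
  refine setIntegral_congr_fun measurableSet_Ioi fun y hy => ?_
  have hy' : (0 : ℝ) < y := hy
  simp only [norm_smul]
  rw [Complex.norm_cpow_eq_rpow_re_of_pos hy', Complex.norm_cpow_eq_rpow_re_of_pos hy']
  simp

theorem norm_exp_ray (θ : ℝ) (s : ℂ) :
    ‖Complex.exp (-((θ : ℂ) * Complex.I * s))‖ = Real.exp (θ * s.im) := by
  rw [Complex.norm_exp]
  congr 1
  simp

/-- the growth of the Gamma function two steps to the left -/
theorem gamma_sub_two {s : ℂ} (h1 : s ≠ 1) (h2 : s ≠ 2) :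
    Complex.Gamma (s - 2) = Complex.Gamma s / ((s - 1) * (s - 2)) := by
  have e1 : s - 1 ≠ 0 := sub_ne_zero.2 h1
  have e2 : s - 2 ≠ 0 := sub_ne_zero.2 h2
  have a1 : Complex.Gamma s = (s - 1) * Complex.Gamma (s - 1) := by
    have := Complex.Gamma_add_one (s - 1) e1
    rwa [sub_add_cancel] at this
  have a2 : Complex.Gamma (s - 1) = (s - 2) * Complex.Gamma (s - 2) := by
    have := Complex.Gamma_add_one (s - 2) e2
    rwa [show s - 2 + 1 = s - 1 by ring] at this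
  rw [a1, a2]
  field_simp

theorem cont_vertical {a ω σ : ℝ} {Z : ℂ → ℂ} (hZ : Cont a ω Z) (h1 : 1 < σ) (h2 : σ < 3 / 2) :
    Continuous fun t : ℝ => Z ((σ : ℂ) + (t : ℂ) * Complex.I) := by
  rw [continuous_iff_continuousAt]
  intro t
  have hre : ((σ : ℂ) + (t : ℂ) * Complex.I).re = σ := by simp
  have hd := (hZ.diff ((σ : ℂ) + (t : ℂ) * Complex.I) (by rw [hre]; exact h1) (by
    intro h
    have := congrArg Complex.re h
    rw [hre] at this
    simp at this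
    linarith)).continuousAt
  refine ContinuousAt.comp (f := fun t : ℝ => (σ : ℂ) + (t : ℂ) * Complex.I) hd ?_
  fun_prop

/-- the mean square of `‖Z‖ + 1 / ω` -/
theorem mean_g {ε C ω : ℝ} (hω : 0 < ω) (hε : 0 < ε) {F : ℝ → ℝ} (hF : Continuous F)
    (hC : ∀ T : ℝ, 1 ≤ T → ∫ t in (1 : ℝ)..T, F t ^ 2 ≤ C * T ^ (1 + ε)) :
    ∀ T : ℝ, 1 ≤ T → ∫ t in (1 : ℝ)..T, (F t + 1 / ω) ^ 2 ≤
      (2 * C + 2 / ω ^ 2) * T ^ (1 + ε) := by
  intro T hT
  have i1 : IntervalIntegrable (fun t => 2 * F t ^ 2 + 2 / ω ^ 2) volume 1 T :=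
    (Continuous.intervalIntegrable (by fun_prop) _ _)
  have i2 : IntervalIntegrable (fun t => (F t + 1 / ω) ^ 2) volume 1 T :=
    (Continuous.intervalIntegrable (by fun_prop) _ _)
  have h1 : ∫ t in (1 : ℝ)..T, (F t + 1 / ω) ^ 2 ≤
      ∫ t in (1 : ℝ)..T, (2 * F t ^ 2 + 2 / ω ^ 2) := by
    refine intervalIntegral.integral_mono_on hT i2 i1 fun t _ => ?_
    have : 2 / ω ^ 2 = 2 * (1 / ω) ^ 2 := by field_simp
    rw [this]
    nlinarith [sq_nonneg (F t - 1 / ω)]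
  have h2 : ∫ t in (1 : ℝ)..T, (2 * F t ^ 2 + 2 / ω ^ 2) =
      2 * (∫ t in (1 : ℝ)..T, F t ^ 2) + (T - 1) * (2 / ω ^ 2) := by
    rw [intervalIntegral.integral_add (Continuous.intervalIntegrable (by fun_prop) _ _)
      (Continuous.intervalIntegrable (by fun_prop) _ _), intervalIntegral.integral_const_mul,
      intervalIntegral.integral_const, smul_eq_mul]
  have h3 := hC T hT
  have h4 : T ≤ T ^ (1 + ε) := by
    calc T = T ^ (1 : ℝ) := (Real.rpow_one T).symm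
      _ ≤ T ^ (1 + ε) := Real.rpow_le_rpow_of_exponent_le hT (by linarith)
  have h5 : 0 < 2 / ω ^ 2 := by positivity
  calc _ ≤ _ := h1
    _ = _ := h2
    _ ≤ 2 * (C * T ^ (1 + ε)) + T ^ (1 + ε) * (2 / ω ^ 2) := by
        gcongr
        linarith
    _ = _ := by ring

/-- the Mellin transforms converge on `Re s > 1` -/
theorem mellin_facts (hBND : S_BND) {a ω θ : ℝ} (ha : 0 < a) (hω : 0 < ω) (hθ : |θ| < Real.pi / 2)
    {s : ℂ} (hs : 1 < s.re) :
    MellinConvergent (hr a ω θ) s ∧ DifferentiableAt ℂ (mellin (hr a ω θ)) s := by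
  obtain ⟨h1, h2, c, hc, h3⟩ := hBND a ω θ ha hω hθ
  have hl : LocallyIntegrableOn (hr a ω θ) (Set.Ioi 0) :=
    h1.locallyIntegrableOn measurableSet_Ioi
  exact ⟨mellinConvergent_of_isBigO_rpow_exp hc hl h3 h2 hs,
    mellin_differentiableAt_of_isBigO_rpow_exp hc hl h3 h2 hs⟩

theorem cont_mellin (hBND : S_BND) {a ω θ σ : ℝ} (ha : 0 < a) (hω : 0 < ω)
    (hθ : |θ| < Real.pi / 2) (hσ : 1 < σ) :
    Continuous fun t : ℝ => mellin (hr a ω θ) ((σ : ℂ) + (t : ℂ) * Complex.I) := by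
  rw [continuous_iff_continuousAt]
  intro t
  have hre : ((σ : ℂ) + (t : ℂ) * Complex.I).re = σ := by simp
  have hd := (mellin_facts hBND ha hω hθ (s := (σ : ℂ) + (t : ℂ) * Complex.I)
    (by rw [hre]; exact hσ)).2.continuousAt
  refine ContinuousAt.comp (f := fun t : ℝ => (σ : ℂ) + (t : ℂ) * Complex.I) hd ?_
  fun_prop

/-- the upper bound for the function on the ray near the imaginary axis -/
theorem t_INV : S_INV := by
  intro hBND hMEL hGEO hSUM hUNI hGAM hCS a ω σ ε C ha hω hσ1 hσ2 hε Z hZ hC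
  obtain ⟨CG, hCG0, hCG⟩ := hGAM
  have hU := hUNI hBND hMEL hGEO hSUM a ω
  obtain ⟨s, hs⟩ : ∃ s : ℝ → ℂ, s = fun t : ℝ => (σ : ℂ) + (t : ℂ) * Complex.I := ⟨_, rfl⟩
  have hst : ∀ t, s t = (σ : ℂ) + (t : ℂ) * Complex.I := fun t => by rw [hs]
  have hsre : ∀ t, (s t).re = σ := fun t => by rw [hst]; simp
  have hsim : ∀ t, (s t).im = t := fun t => by rw [hst]; simp
  have hπ := Real.pi_gt_three
  obtain ⟨g, hg⟩ : ∃ g : ℝ → ℝ, g = fun t : ℝ => ‖Z ((σ : ℂ) + (t : ℂ) * Complex.I)‖ + 1 / ω :=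
    ⟨_, rfl⟩
  have hgt : ∀ t, g t = ‖Z (s t)‖ + 1 / ω := fun t => by rw [hg, hst]
  have hgc : Continuous g := by
    rw [hg]
    exact (cont_vertical hZ hσ1 hσ2).norm.add continuous_const
  have hg0 : ∀ t, 0 ≤ g t := fun t => by rw [hgt]; positivity
  have hgm : ∀ T : ℝ, 1 ≤ T → ∫ t in (1 : ℝ)..T, g t ^ 2 ≤
      (2 * C + 2 / ω ^ 2) * T ^ (1 + ε) := by
    rw [hg]
    exact mean_g hω hε (cont_vertical hZ hσ1 hσ2).norm hC
  obtain ⟨K1, hK1, hK⟩ := hCS σ ε _ hσ1.le hσ2.le hε g hgc hg0 hgm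
  obtain ⟨B0, hB⟩ : ∃ B0 : ℝ, B0 =
    ∫ y in Set.Ioi (0 : ℝ), ‖((y : ℝ) : ℂ) ^ ((σ : ℂ) - 1) • hr a ω 0 y‖ := ⟨_, rfl⟩
  have hB0 : 0 ≤ B0 := by
    rw [hB]
    exact integral_nonneg fun y => norm_nonneg _
  refine ⟨B0 * Real.exp (Real.pi / 2) * (2 * Real.exp (1 / 2)) + CG * K1, by positivity,
    fun δ hδ0 hδ1 y hy => ?_⟩
  obtain ⟨θ, hθd⟩ : ∃ θ : ℝ, θ = Real.pi / 2 - δ := ⟨_, rfl⟩
  rw [← hθd]
  have hθ0 : 1 / 2 ≤ θ := by rw [hθd]; linarith
  have hθ1 : θ < Real.pi / 2 := by rw [hθd]; linarith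
  have hθ : |θ| < Real.pi / 2 := abs_lt.2 ⟨by linarith, hθ1⟩
  have h00 : |(0 : ℝ)| < Real.pi / 2 := by rw [abs_zero]; positivity
  obtain ⟨M, hM⟩ : ∃ M : ℝ → ℂ, M = fun t : ℝ =>
    mellin (hr a ω θ) ((σ : ℂ) + (t : ℂ) * Complex.I) := ⟨_, rfl⟩
  have hMt : ∀ t, M t = mellin (hr a ω θ) (s t) := fun t => by rw [hM, hst]
  have hMc : Continuous M := by
    rw [hM]
    exact cont_mellin hBND ha hω hθ hσ1
  -- the comparison with the real axis
  have key : ∀ t, t ≠ 0 → ‖M t‖ = Real.exp (θ * t) *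
      ‖Complex.Gamma (s t) * Z (s t) - Complex.Gamma (s t - 2) / (ω : ℂ)‖ := by
    intro t ht
    rw [hMt, hU θ ha hω hθ Z hZ (s t) (by rw [hsre]; exact hσ1) (by rw [hsim]; exact ht),
      norm_mul, norm_exp_ray, hsim]
  have key0 : ∀ t, t ≠ 0 →
      ‖Complex.Gamma (s t) * Z (s t) - Complex.Gamma (s t - 2) / (ω : ℂ)‖ ≤ B0 := by
    intro t ht
    have h1 := hU 0 ha hω h00 Z hZ (s t) (by rw [hsre]; exact hσ1) (by rw [hsim]; exact ht)
    have h2 : ‖mellin (hr a ω 0) (s t)‖ ≤ B0 := by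
      rw [hB, hst]
      exact norm_mellin_le _ _ _
    rw [h1, norm_mul, norm_exp_ray] at h2
    simpa using h2
  have hM1 : ∀ t, t ≤ 1 → t ≠ 0 → ‖M t‖ ≤
      B0 * Real.exp (Real.pi / 2) * Real.exp (t / 2) := by
    intro t ht ht0
    rw [key t ht0]
    have e1 : Real.exp (θ * t) ≤ Real.exp (Real.pi / 2) * Real.exp (t / 2) := by
      rw [← Real.exp_add]
      apply Real.exp_le_exp.2
      rcases le_total 0 t with h | h
      · nlinarith
      · nlinarith
    calc _ ≤ (Real.exp (Real.pi / 2) * Real.exp (t / 2)) * B0 :=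
          mul_le_mul e1 (key0 t ht0) (norm_nonneg _) (by positivity)
      _ = _ := by ring
  have hM2 : ∀ t, 1 ≤ t → ‖M t‖ ≤
      CG * (t ^ (σ - 1 / 2) * Real.exp (-δ * t) * g t) := by
    intro t ht
    have ht0 : t ≠ 0 := by positivity
    have tpos : 0 < t := by linarith
    rw [key t ht0]
    have s1 : s t ≠ 1 := by
      intro h
      have := congrArg Complex.im h
      rw [hsim] at this
      simp at this
      exact ht0 this
    have s2 : s t ≠ 2 := by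
      intro h
      have := congrArg Complex.im h
      rw [hsim] at this
      simp at this
      exact ht0 this
    have n1 : 1 ≤ ‖s t - 1‖ := by
      refine le_trans ?_ (Complex.abs_im_le_norm _)
      rw [Complex.sub_im, hsim, Complex.one_im, sub_zero, abs_of_pos tpos]
      exact ht
    have n2 : 1 ≤ ‖s t - 2‖ := by
      refine le_trans ?_ (Complex.abs_im_le_norm _)
      have : (2 : ℂ).im = 0 := by simp
      rw [Complex.sub_im, hsim, this, sub_zero, abs_of_pos tpos]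
      exact ht
    have e1 : ‖Complex.Gamma (s t - 2)‖ ≤ ‖Complex.Gamma (s t)‖ := by
      rw [gamma_sub_two s1 s2, norm_div, norm_mul]
      exact div_le_self (norm_nonneg _) (one_le_mul_of_one_le_of_one_le n1 n2)
    have e2 : ‖Complex.Gamma (s t) * Z (s t) - Complex.Gamma (s t - 2) / (ω : ℂ)‖ ≤
        ‖Complex.Gamma (s t)‖ * g t := by
      refine (norm_sub_le _ _).trans ?_
      rw [norm_mul, norm_div, Complex.norm_real, Real.norm_of_nonneg hω.le, hgt, mul_add,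
        mul_one_div]
      gcongr
    have e3 := hCG σ t hσ1.le hσ2.le ht
    rw [← hst] at e3
    calc _ ≤ Real.exp (θ * t) * ((CG * t ^ (σ - 1 / 2) * Real.exp (-(Real.pi / 2 * t))) * g t) := by
          refine mul_le_mul_of_nonneg_left (e2.trans ?_) (Real.exp_pos _).le
          exact mul_le_mul_of_nonneg_right e3 (hg0 t)
      _ = CG * (t ^ (σ - 1 / 2) * (Real.exp (θ * t) * Real.exp (-(Real.pi / 2 * t))) * g t) := by
          ring
      _ = _ := by
          rw [← Real.exp_add, hθd]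
          congr 4
          ring
  obtain ⟨hKi, hKb⟩ := hK δ hδ0 hδ1
  -- integrability
  have ae0 : ∀ᵐ t : ℝ, t ≠ 0 := by
    have := (Set.countable_singleton (0 : ℝ)).ae_notMem volume
    simpa using this
  have jexp : IntegrableOn (fun t : ℝ => B0 * Real.exp (Real.pi / 2) * Real.exp (t / 2))
      (Set.Iic 1) := by
    refine Integrable.const_mul ?_ _
    have := integrableOn_exp_mul_Iic (a := (1 / 2 : ℝ)) (by norm_num) 1
    refine this.congr_fun (fun t _ => ?_) measurableSet_Iic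
    simp only []
    congr 1
    ring
  have iexp : ∫ t in Set.Iic (1 : ℝ), B0 * Real.exp (Real.pi / 2) * Real.exp (t / 2) =
      B0 * Real.exp (Real.pi / 2) * (2 * Real.exp (1 / 2)) := by
    rw [integral_const_mul]
    congr 1
    have := integral_exp_mul_Iic (a := (1 / 2 : ℝ)) (by norm_num) 1
    rw [show (2 : ℝ) * Real.exp (1 / 2) = Real.exp (1 / 2 * 1) / (1 / 2) by
      rw [mul_one]; ring, ← this]
    refine setIntegral_congr_fun measurableSet_Iic fun t _ => ?_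
    congr 1
    ring
  have hb1 : ∀ᵐ t ∂(volume.restrict (Set.Iic (1 : ℝ))), ‖M t‖ ≤
      B0 * Real.exp (Real.pi / 2) * Real.exp (t / 2) := by
    filter_upwards [ae_restrict_mem measurableSet_Iic, ae_restrict_of_ae ae0] with t h1 h2
    exact hM1 t h1 h2
  have hb2 : ∀ᵐ t ∂(volume.restrict (Set.Ioi (1 : ℝ))), ‖M t‖ ≤
      CG * (t ^ (σ - 1 / 2) * Real.exp (-δ * t) * g t) := by
    filter_upwards [ae_restrict_mem measurableSet_Ioi] with t h1
    exact hM2 t (le_of_lt h1)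
  have hI1 : IntegrableOn M (Set.Iic 1) :=
    Integrable.mono' jexp hMc.aestronglyMeasurable hb1
  have hI2 : IntegrableOn M (Set.Ioi 1) :=
    Integrable.mono' (hKi.const_mul CG) hMc.aestronglyMeasurable hb2
  have hI : Integrable M := by
    rw [← integrableOn_univ, ← Set.Iic_union_Ioi (a := (1 : ℝ))]
    exact hI1.union hI2
  have n1 : ∫ t in Set.Iic (1 : ℝ), ‖M t‖ ≤
      B0 * Real.exp (Real.pi / 2) * (2 * Real.exp (1 / 2)) := by
    rw [← iexp]
    exact integral_mono_ae hI1.norm jexp hb1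
  have n2 : ∫ t in Set.Ioi (1 : ℝ), ‖M t‖ ≤ CG * (K1 * δ ^ (-(σ + 1 / 2 + ε / 2))) := by
    calc _ ≤ ∫ t in Set.Ioi (1 : ℝ), CG * (t ^ (σ - 1 / 2) * Real.exp (-δ * t) * g t) :=
          integral_mono_ae hI2.norm (hKi.const_mul CG) hb2
      _ ≤ _ := by
          rw [integral_const_mul]
          exact mul_le_mul_of_nonneg_left hKb hCG0
  have n3 : ∫ t : ℝ, ‖M t‖ ≤ (B0 * Real.exp (Real.pi / 2) * (2 * Real.exp (1 / 2)) + CG * K1) *
      δ ^ (-(σ + 1 / 2 + ε / 2)) := by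
    have h1 : ∫ t : ℝ, ‖M t‖ =
        (∫ t in Set.Iic (1 : ℝ), ‖M t‖) + ∫ t in Set.Ioi (1 : ℝ), ‖M t‖ := by
      rw [← setIntegral_univ, ← Set.Iic_union_Ioi (a := (1 : ℝ))]
      exact setIntegral_union (Set.Iic_disjoint_Ioi le_rfl) measurableSet_Ioi hI1.norm hI2.norm
    have h2 : 1 ≤ δ ^ (-(σ + 1 / 2 + ε / 2)) :=
      Real.one_le_rpow_of_pos_of_le_one_of_nonpos hδ0 hδ1 (by linarith)
    have h3 : 0 ≤ B0 * Real.exp (Real.pi / 2) * (2 * Real.exp (1 / 2)) := by positivity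
    rw [h1, add_mul]
    refine add_le_add (n1.trans ?_) (n2.trans (le_of_eq (by ring)))
    exact le_mul_of_one_le_right h3 h2
  -- inversion
  obtain ⟨hcont, -⟩ := hBND a ω θ ha hω hθ
  have hre : (σ : ℂ).re = σ := Complex.ofReal_re σ
  have inv := mellinInv_mellin_eq σ (hr a ω θ) hy
    (mellin_facts hBND ha hω hθ (by rw [hre]; exact hσ1)).1
    (by
      unfold Complex.VerticalIntegrable
      rw [← hM]
      exact hI)
    (hcont.continuousAt (Ioi_mem_nhds hy))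
  rw [← inv]
  unfold mellinInv
  rw [norm_smul]
  have q1 : ‖(1 / (2 * Real.pi) : ℝ)‖ ≤ 1 := by
    rw [Real.norm_of_nonneg (by positivity), div_le_one (by positivity)]
    linarith
  have q2 : ‖∫ t : ℝ, ((y : ℝ) : ℂ) ^ (-((σ : ℂ) + (t : ℂ) * Complex.I)) •
      mellin (hr a ω θ) ((σ : ℂ) + (t : ℂ) * Complex.I)‖ ≤ y ^ (-σ) * ∫ t : ℝ, ‖M t‖ := by
    refine (norm_integral_le_integral_norm _).trans (le_of_eq ?_)
    rw [← integral_const_mul]
    refine integral_congr_ae (Filter.Eventually.of_forall fun t => ?_)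
    simp only [norm_smul]
    rw [Complex.norm_cpow_eq_rpow_re_of_pos hy, hMt, hst]
    simp
  have q3 : 0 ≤ y ^ (-σ) := Real.rpow_nonneg hy.le _
  calc _ ≤ 1 * (y ^ (-σ) * ∫ t : ℝ, ‖M t‖) :=
        mul_le_mul q1 q2 (norm_nonneg _) zero_le_one
    _ ≤ y ^ (-σ) * ((B0 * Real.exp (Real.pi / 2) * (2 * Real.exp (1 / 2)) + CG * K1) *
          δ ^ (-(σ + 1 / 2 + ε / 2))) := by
        rw [one_mul]
        exact mul_le_mul_of_nonneg_left n3 q3
    _ = _ := by ring

end Pool.Agent.L0h52.BZ
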