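import Mathlib

/-!
# Project BZ (helper52): the Barnes double zeta function for well approximable weights. Statements

`f(z) = e^(-a z) / ((1 - e^(-z)) (1 - e^(-ω z)))` is the sum of `e^(-λ z)` over `λ = a + m + n ω`; `hh` is
`f(z) - e^(-z) / (ω z²)`, of size `1 / |z|` at `0`.  Its Mellin transform on the ray of angle `θ` is
`e^(-i θ s) (Γ(s) Z(s) - Γ(s - 2) / ω)`.
-/

set_option autoImplicit false

open scoped Classical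
open Filter Topology Asymptotics

namespace Pool.Agent.L0h52.BZ

/-- the numbers `a + m + n ω` -/
noncomputable def lam (a ω : ℝ) (m : ℕ × ℕ) : ℝ := a + m.1 + m.2 * ω

/-- the generating function -/
noncomputable def ff (a ω : ℝ) (z : ℂ) : ℂ :=
  Complex.exp (-((a : ℂ) * z)) / ((1 - Complex.exp (-z)) * (1 - Complex.exp (-((ω : ℂ) * z))))

/-- the generating function without its double pole at `0` -/
noncomputable def hh (a ω : ℝ) (z : ℂ) : ℂ := ff a ω z - Complex.exp (-z) / ((ω : ℂ) * z ^ 2)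

/-- the direction of angle `θ` -/
noncomputable def uu (θ : ℝ) : ℂ := Complex.exp ((θ : ℂ) * Complex.I)

/-- the function on the ray of angle `θ` -/
noncomputable def hr (a ω θ y : ℝ) : ℂ := hh a ω ((y : ℂ) * uu θ)

/-- the Dirichlet series on `Re s > 2` and its continuation to `Re s > 1` -/
structure Cont (a ω : ℝ) (Z : ℂ → ℂ) : Prop where
  diff : ∀ s : ℂ, 1 < s.re → s ≠ 2 → DifferentiableAt ℂ Z s
  sum : ∀ s : ℂ, 2 < s.re → HasSum (fun m : ℕ × ℕ => ((lam a ω m : ℝ) : ℂ) ^ (-s)) (Z s)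

/-- GEO: geometric series -/
def S_GEO : Prop := ∀ a ω : ℝ, 0 < a → 0 < ω → ∀ z : ℂ, 0 < z.re →
  HasSum (fun m : ℕ × ℕ => Complex.exp (-(((lam a ω m : ℝ) : ℂ) * z))) (ff a ω z)

/-- SUM: convergence of the series, by `a + m + n ω ≥ c √(m + 1) √(n + 1)` -/
def S_SUM : Prop := ∀ a ω : ℝ, 0 < a → 0 < ω → ∀ σ : ℝ, 2 < σ →
  Summable fun m : ℕ × ℕ => (lam a ω m) ^ (-σ)

/-- BND: on the ray of angle `θ` the function is continuous, `O(1 / y)` at `0` and decays exponentially.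
At `0`: `‖exp x - 1 - x‖ ≤ ‖x‖²` for `‖x‖ ≤ 1` (Mathlib). -/
def S_BND : Prop := ∀ a ω θ : ℝ, 0 < a → 0 < ω → |θ| < Real.pi / 2 →
  ContinuousOn (hr a ω θ) (Set.Ioi 0) ∧
  hr a ω θ =O[𝓝[>] 0] (fun y : ℝ => y ^ (-1 : ℝ)) ∧
  ∃ c : ℝ, 0 < c ∧ hr a ω θ =O[atTop] fun y : ℝ => Real.exp (-c * y)

/-- MEL: the Mellin transform for `Re s > 2` (`Complex.integral_cpow_mul_exp_neg_mul_Ioi`, and
`MeasureTheory.hasSum_integral_of_summable_integral_norm`) -/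
def S_MEL : Prop := S_GEO → S_SUM → ∀ a ω θ : ℝ, 0 < a → 0 < ω → |θ| < Real.pi / 2 →
  ∀ s : ℂ, 2 < s.re → mellin (hr a ω θ) s = Complex.exp (-((θ : ℂ) * Complex.I * s)) *
    (Complex.Gamma s * (∑' m : ℕ × ℕ, ((lam a ω m : ℝ) : ℂ) ^ (-s)) -
      Complex.Gamma (s - 2) / (ω : ℂ))

/-- UNI: the same for `Re s > 1`, by the identity theorem in the quarter planes `Im s > 0`, `Im s < 0` -/
def S_UNI : Prop := S_BND → S_MEL → S_GEO → S_SUM → ∀ a ω θ : ℝ, 0 < a → 0 < ω →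
  |θ| < Real.pi / 2 → ∀ Z : ℂ → ℂ, Cont a ω Z → ∀ s : ℂ, 1 < s.re → s.im ≠ 0 →
    mellin (hr a ω θ) s = Complex.exp (-((θ : ℂ) * Complex.I * s)) *
      (Complex.Gamma s * Z s - Complex.Gamma (s - 2) / (ω : ℂ))

/-- GAM: Stirling's bound (`H401R2.stirling`, and `stir_re` in `H52R4/PZT1.lean`) -/
def S_GAM : Prop := ∃ C : ℝ, 0 ≤ C ∧ ∀ σ t : ℝ, 1 ≤ σ → σ ≤ 3 / 2 → 1 ≤ t →
  ‖Complex.Gamma ((σ : ℂ) + (t : ℂ) * Complex.I)‖ ≤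
    C * t ^ (σ - 1 / 2) * Real.exp (-(Real.pi / 2 * t))

/-- CS: real analysis. Cauchy-Schwarz and
`∫_1^∞ e^(-δ t) g(t)² dt ≤ ∑_n e^(-n) ∫_1^((n + 2) / δ) g² ≤ C' δ^(-1 - ε)` -/
def S_CS : Prop := ∀ σ ε C : ℝ, 1 ≤ σ → σ ≤ 3 / 2 → 0 < ε → ∀ g : ℝ → ℝ, Continuous g →
  (∀ t, 0 ≤ g t) → (∀ T : ℝ, 1 ≤ T → ∫ t in (1 : ℝ)..T, g t ^ 2 ≤ C * T ^ (1 + ε)) →
  ∃ K : ℝ, 0 ≤ K ∧ ∀ δ : ℝ, 0 < δ → δ ≤ 1 →
    MeasureTheory.IntegrableOn (fun t : ℝ => t ^ (σ - 1 / 2) * Real.exp (-δ * t) * g t)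
      (Set.Ioi 1) ∧
    ∫ t in Set.Ioi (1 : ℝ), t ^ (σ - 1 / 2) * Real.exp (-δ * t) * g t ≤
      K * δ ^ (-(σ + 1 / 2 + ε / 2))

/-- LOW: lower bound near the double pole `2 π i q` of the function with weight `p / q` -/
def S_LOW : Prop := ∀ a ω : ℝ, 0 < a → 0 < ω → ∃ c δ₀ : ℝ, 0 < c ∧ 0 < δ₀ ∧
  ∀ (p : ℤ) (q : ℕ) (δ : ℝ), 1 ≤ q → 0 < δ → q * δ ≤ δ₀ → |ω - p / q| ≤ δ →
    c / ((q : ℝ) ^ 2 * δ ^ 2) ≤ ‖hr a ω (Real.pi / 2 - δ) (2 * Real.pi * q)‖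

/-- INV: upper bound from the mean square, by Mellin inversion (`mellin_inversion`) -/
def S_INV : Prop := S_BND → S_MEL → S_GEO → S_SUM → S_UNI → S_GAM → S_CS →
  ∀ a ω σ ε C : ℝ, 0 < a → 0 < ω → 1 < σ → σ < 3 / 2 → 0 < ε → ∀ Z : ℂ → ℂ, Cont a ω Z →
    (∀ T : ℝ, 1 ≤ T →
      ∫ t in (1 : ℝ)..T, ‖Z ((σ : ℂ) + (t : ℂ) * Complex.I)‖ ^ 2 ≤ C * T ^ (1 + ε)) →
    ∃ K : ℝ, 0 ≤ K ∧ ∀ δ : ℝ, 0 < δ → δ ≤ 1 → ∀ y : ℝ, 0 < y →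
      ‖hr a ω (Real.pi / 2 - δ) y‖ ≤ K * y ^ (-σ) * δ ^ (-(σ + 1 / 2 + ε / 2))

/-- EXI: the meromorphic continuation, from the expansion of `e^z z² f(z)` at `0` -/
def S_EXI : Prop := S_GEO → S_SUM → ∀ a ω : ℝ, 0 < a → 0 < ω → ∃ Z : ℂ → ℂ,
  (∀ s : ℂ, s ≠ 1 → s ≠ 2 → DifferentiableAt ℂ Z s) ∧
  ∀ s : ℂ, 2 < s.re → HasSum (fun m : ℕ × ℕ => ((lam a ω m : ℝ) : ℂ) ^ (-s)) (Z s)

end Pool.Agent.L0h52.BZ
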